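import Pool.Agent.H59.L.S8.R187.CT.Base
import Pool.Agent.H59.L.S8.H176.DT.H13
import Pool.Agent.H59.L.T66d723.W5h94.SP.Lift
import Pool.Agent.H59.L.T66d723.W5h94.WP.Semi9
import Pool.Agent.H59.RP.Surf

/-!
MP_1a953e_ag: semistable uniformization, tame and wild, of the points of `X^ad` of arbitrary rank and
arbitrary support whose valuation is in a class of valuations with defect which is closed under
composition, tensor products and towers.

Let `k` be a (complete) discretely valued field with the ring of integers `O`, the uniformizer `π`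
and the residue characteristic `p ≥ 0`; if `k` has characteristic `p`, suppose that `k` is
`F`-finite. Let `X` be an integral projective `k`-scheme of any dimension with the function field
`K`, with the projective flat model `𝒳` over `O`. The points of the adic space `X^ad` are the pairs
`(Z, U)` of an integral closed subscheme `Z` of `X`, the support, and a valuation ring `U ⊇ O` of the
residue field `κ(Z)` of its generic point such that `π` is topologically nilpotent in `U`; all
supports (also `Z = X`) and all ranks are allowed. Let `X` be regular at the generic point of `Z`,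
which holds if `X` is rig-smooth, and let `U` be reachable: `U` belongs to the smallest class of
valuations (of fields over rings) with the following properties.

1. It contains the trivial valuations, the discrete valuations of rank one (with arbitrary residue
   fields), and the valuations whose sequences of quadratic transforms are divergent.
2. It contains the valuations of finitely generated fields which are log uniformizable on one affine
   model (by Cossart and Piltant, all valuations which have a quasi-excellent affine model of dimension at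
   most `3`).
3. It contains the valuations which have a regular centre of dimension two on some affine model. (So,
   by the resolution of singularities of surfaces, it contains all valuations of function fields of
   curves over `k`, for example the ones of the points of type 4, whose extension over `k` has a
   defect in general.)
4. It contains the valuations which have a regular centre on some affine model, for which infinitely
   many steps of the sequence of quadratic transforms are spanning: the residue field is perfect, and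
   the centre on the exceptional divisor, a projective space, is not contained in a hyperplane over
   the residue field. (There is no condition on the defect, and the sequence need not be divergent.)
5. It contains the composite of a valuation `V₁` of the class and a valuation of the class of the
   residue field of `V₁`.
6. It contains a valuation of `L₁ L₂`, where `L₁` (finitely generated over `R`) and `L₂` (finitely
   generated over a field `k₀`, with `k₀ → R`) are linearly disjoint over `k₀`, if it is the tensor
   product of its restrictions to `L₁` and `L₂`, which are in the class.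
7. It contains a valuation of `K` if it contains the restriction to a finitely generated subfield `E`
   from which `K` is reached by a tower of steps without defect (simple transcendental steps without
   limit key polynomials, and finite steps without defect; the ramification can be wild and the
   residue field extensions inseparable).

These operations can be alternated. Suppose that the leading form of `π` is not a `p`-th power in the
graded ring of `U`, that is, `|π - z ^ p| < |π|` for no `z ∈ κ(Z)`. (This holds if `|π|` is not a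
`p`-th power in the value group of `U`, the tame case. It is a weaker condition: in the wild case the
value group can be infinitely `p`-divisible, and then `|π|` is a `p`-th power in the value group also
after all finite extensions of `k`.) Then there are numbers `D`, `N₀` such that, for every `N ≥ N₀`
divisible by `D`, for `l = k(ϖ)`, `ϖ ^ N = π`, with the ring of integers `O[ϖ]`, and for the
preimages of the point `(Z, U)` in the adic space of `X_l`, a blowing-up of `𝒳 ⊗ O[ϖ]` in a closed
subscheme of the special fibre, that is, an admissible blowing-up, is semistable at the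
specialization of the preimage: its local ring is regular, and `ϖ` is a product of distinct elements
of a regular system of parameters. Here `|π|` is a `D`-th power in the value group of `U` modulo
infinitesimals; so `D` is prime to `p`, and `l / k` can be taken tamely ramified, if `|π|` is not a
`p`-th power modulo infinitesimals.

In the theorem the point is given by a valuation ring `V ⊇ O` of `K` with `|π| < 1`, in which `π`
need not be topologically nilpotent: `V₁ = V[1 / π]` is a valuation ring, `Z` is the centre of `V₁`
on `X`, and `U` is the valuation ring of `κ(Z)` which is induced by `V`. All the points arise in this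
way, with `V₁` whose residue field is `κ(Z)` (as `X` is regular at `Z`, there is such a composite
`V₁` of discrete valuation rings; let `V` be the composite of `V₁` and `U`), and then all preimages
of `(Z, U)` in the adic space of `X_l` arise in the same way from the valuation rings `V'` over `V`.
The specialization of the point in a model is the centre of `V` (of `V'`).

Earlier results: `SupportedPoints`, `HigherRankPoints` (tame), `WildPoints` (wild) treat the class
which is generated by 1, 5, 7 and the valuations which are log uniformizable on all models;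
`SpanningPoints` treats the points of rank one over the generic point of `X` of type 4 in the tame
case, and `CompositaPoints` the tensor products, with rank one, support `X` and in the tame case.
New: one class which is closed under all the operations, for all ranks and supports, in the tame and
in the wild case; for example, all composites of spanning valuations with defect, tensor products
of composites, and towers over them, and the points with these valuations on proper subvarieties.
(In equal characteristic `p` the extension `k(ϖ) / k` is inseparable if `p` divides `N`; so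
uniformizability in the strict sense follows there only for `D` prime to `p`.)
-/

set_option autoImplicit false

universe u

namespace Pool.Agent.Results.MP_1a953e_ag.ReachablePoints

open IsLocalRing Pool.Agent.W418.LU2 Pool.Agent.TH188.QS

/-- The local ring of `Spec B` at the centre of the valuation ring `V`: the fractions of elements
of `B` whose denominators are units of `V`. -/
def centreRing {F : Type u} [Field F] (V : ValuationSubring F) (B : Subring F) : Subring F where
  carrier := {x | ∃ a ∈ B, ∃ b ∈ B, b ≠ 0 ∧ b⁻¹ ∈ V ∧ x = a * b⁻¹}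
  mul_mem' := (lo V.toSubring B).mul_mem'
  one_mem' := (lo V.toSubring B).one_mem'
  add_mem' := (lo V.toSubring B).add_mem'
  zero_mem' := (lo V.toSubring B).zero_mem'
  neg_mem' := (lo V.toSubring B).neg_mem'

/-- The subring `P` of the field `K` is a regular local ring, and `ϖ` is the product of some (at
least one) of the elements of a regular system of parameters. (If `ϖ` is a uniformizer of a discrete
valuation ring `O` with perfect residue field and `P` is the local ring of an integral flat
`O`-scheme of finite type at a point of the special fibre, then these elements `t i` define a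
morphism from a neighbourhood of this point to `Spec O[t 0, ..., t d] / (t 0 * ... * t d - ϖ)` which
is flat with regular, hence smooth, fibre through this point; so it is smooth there.) -/
def IsSemistable {K : Type u} [Field K] (P : Subring K) (ϖ : K) : Prop :=
  ∃ (_ : IsRegularLocalRing P) (n : ℕ) (x : Fin n → P) (S : Finset (Fin n)),
    Ideal.span (Set.range x) = IsLocalRing.maximalIdeal P ∧ ringKrullDim P = n ∧
      S.Nonempty ∧ ϖ = ∏ i ∈ S, (x i : K)

/-- The coordinate ring `O[v / w : v ∈ W]` of the chart `w ≠ 0` of the projective `O`-scheme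
`Proj O[W]` with the function field `K` and the homogeneous coordinates `W ⊆ K`. -/
def chart {K : Type u} [Field K] (O : Subring K) (W : Set K) (w : K) : Subring K :=
  Subring.closure ((O : Set K) ∪ {z | ∃ v ∈ W, z = v / w})

/-- `Y` is a finite set of forms of some degree `d` over `O` in the homogeneous coordinates `W`,
and `p ^ n` times any form of degree `d` is a linear combination of the forms in `Y`, for some `n`.
So the closed subscheme of `Proj O[W]` defined by the forms in `Y` is contained in the
fibre over `p`. -/
def IsVerticalCentre {K : Type u} [Field K] (O : Subring K) (p : K) (W Y : Set K) : Prop :=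
  Y.Finite ∧ ∃ d n : ℕ, Y ⊆ ((Submodule.span O W) ^ d : Submodule O K) ∧
    ∀ z ∈ (Submodule.span O W) ^ d, p ^ n * z ∈ Submodule.span O Y

/-- The homogeneous coordinates of the blowing-up of `Proj O[W]` in the closed subscheme which is
defined by the forms in `Y`. -/
def blowUpCoordinates {K : Type u} [Field K] (W Y : Set K) : Set K :=
  {z | ∃ y ∈ Y, ∃ v ∈ W, z = y * v}

/-- The projective scheme `Proj O[W]` is semistable at the centre of `V`, which lies in the chart
`w ≠ 0`. -/
def IsSemistableAt {K : Type u} [Field K] (V : ValuationSubring K) (O : Subring K) (W : Set K)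
    (ϖ : K) : Prop :=
  ∃ w ∈ W, w ≠ 0 ∧ (∀ v ∈ W, v / w ∈ V) ∧ IsSemistable (centreRing V (chart O W w)) ϖ

/-- The ring `O[ϖ]`. (If `O` is a discrete valuation ring with the uniformizer `π = ϖ ^ N`, then it
is the ring of integers of the totally ramified extension `k(ϖ)` of the field of fractions `k` of
`O`.) -/
def ramifiedRing {L K' : Type u} [Field L] [Field K'] (φ : L →+* K') (O : Subring L) (ϖ : K') :
    Subring K' :=
  Subring.closure ((O.map φ : Set K') ∪ {ϖ})

/-- `K' = K(ϖ)` with `ϖ ^ N = π`, and `V'` is a valuation ring of `K'` over the valuation ring `V`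
of `K`. -/
def IsLift {K K' : Type u} [Field K] [Field K'] [Algebra K K'] (V : ValuationSubring K) (π : K)
    (N : ℕ) (V' : ValuationSubring K') (ϖ : K') : Prop :=
  V'.comap (algebraMap K K') = V ∧ ϖ ^ N = algebraMap K K' π ∧
    ∀ z : K', z ∈ Subfield.closure (Set.range (algebraMap K K') ∪ {ϖ})

/-- The chart `A[I / f]` of the blowing-up of `Spec A` in the ideal `I`. -/
def blowUpChart {F : Type u} [Field F] (A : Subring F) (I : Ideal A) (f : A) : Subring F :=
  Subring.closure ((A : Set F) ∪ {z | ∃ a ∈ I, z = (a : F) / (f : F)})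

/-- `P` is a regular local ring and the zero set of `J` is a divisor with strict normal
crossings: the radical of `J` is generated by the product of some of the elements of a regular
system of parameters. -/
def RegularPair (P : Type u) [CommRing P] (J : Ideal P) : Prop :=
  ∃ (_ : IsRegularLocalRing P) (n : ℕ) (x : Fin n → P) (s : Finset (Fin n)),
    Ideal.span (Set.range x) = IsLocalRing.maximalIdeal P ∧ ringKrullDim P = n ∧
      J.radical = Ideal.span {∏ i ∈ s, x i}

/-- The blowing-up of `X = Spec A` in `V(I)` is a log desingularization of `(X, V(D))` along the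
valuation ring `V`. Here `f ∈ I` generates `I V`, the centre of the lift of the valuation lies in
the chart `Spec A[I / f]`, and the ideal `D I` defines the preimage of `V(D) ∪ V(I)`. -/
def IsLogDesingularization {F : Type u} [Field F] (V : ValuationSubring F) (A : Subring F)
    (D I : Ideal A) : Prop :=
  ∃ f ∈ I, f ≠ 0 ∧ (∀ a ∈ I, (a : F) / (f : F) ∈ V) ∧
    RegularPair (centreRing V (blowUpChart A I f))
      (Ideal.span {z | ∃ a ∈ D * I, (z : F) = (a : F)})

/-- The valuation ring `V` is log uniformizable on `Spec A`. (The blowings-up in the ideals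
`I₀ * I₁` are cofinal: the blowing-up in `I₀ * I₁` factors through the blowing-up in `I₀`.) -/
def IsLogUniformizable {F : Type u} [Field F] (V : ValuationSubring F) (A : Subring F) : Prop :=
  ∀ D I₀ : Ideal A, D ≠ ⊥ → I₀ ≠ ⊥ →
    ∃ I₁ : Ideal A, I₁ ≠ ⊥ ∧ IsLogDesingularization V A D (I₀ * I₁)

/-- A ring of prime characteristic `p` which is a finite module over its ring of `p`-th powers. -/
def IsFFinite (R : Type u) [CommRing R] : Prop :=
  ∃ (p : ℕ) (_ : Fact p.Prime) (_ : CharP R p), (frobenius R p).Finite

/-- The image of the `R`-algebra generated by `T`. -/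
def adjoined {R K : Type u} [CommRing R] [Field K] (ρ : R →+* K) (T : Set K) : Subring K :=
  Subring.closure ((ρ.range : Set K) ∪ T)

/-- The quadratic transform of `Q` along `V`: the local ring, at the centre of `V`, of the
blowing-up of `Spec Q` in the centre of `V`. -/
def quadraticTransform {K : Type u} [Field K] (V : ValuationSubring K) (Q : Subring K) :
    Subring K :=
  centreRing V (Subring.closure ((Q : Set K) ∪ {t | ∃ y ∈ Q, ∃ z ∈ Q,
    V.valuation y < 1 ∧ z ≠ 0 ∧ V.valuation z < 1 ∧
      (∀ w ∈ Q, V.valuation w < 1 → V.valuation w ≤ V.valuation z) ∧ t = y / z}))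

/-- The sequence of quadratic transforms of the local ring of `Spec A` at the centre of `V`. -/
def quadraticSequence {K : Type u} [Field K] (V : ValuationSubring K) (A : Subring K) :
    ℕ → Subring K
  | 0 => centreRing V A
  | n + 1 => quadraticTransform V (quadraticSequence V A n)

/-- The values of the maximal ideals in the sequence of quadratic transforms have an infinite sum:
every value of `V` is exceeded by the value of all products `z 0 * ... * z (n - 1)` of elements
`z i` of the maximal ideals of the rings of the sequence, for some `n`. -/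
def IsDivergent {K : Type u} [Field K] (V : ValuationSubring K) (A : Subring K) : Prop :=
  ∀ x : K, x ≠ 0 → ∃ n : ℕ, ∀ z : ℕ → K,
    (∀ i < n, z i ∈ quadraticSequence V A i ∧ z i ≠ 0 ∧ V.valuation (z i) < 1) →
      V.valuation (∏ i ∈ Finset.range n, z i) < V.valuation x

/-- `V` is the composite of the valuation ring `V₁` and the valuation ring `W` of its residue
field. -/
def IsComposite {K : Type u} [Field K] (V V₁ : ValuationSubring K)
    (W : ValuationSubring (ResidueField V₁)) : Prop :=
  ∀ z : K, z ∈ V ↔ ∃ hz : z ∈ V₁, residue V₁ ⟨z, hz⟩ ∈ W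

/-- The residue field of the local ring `P` is perfect, and all elements of the maximal ideal of `P`
which are not in its square have the same value (the centre of `V` on the blowing-up of the closed
point of `Spec P` is not on the strict transform of a regular hypersurface). -/
def IsSpanning {K : Type u} [Field K] (V : ValuationSubring K) (P : Subring K) : Prop :=
  ∃ _ : IsLocalRing P, PerfectField (ResidueField P) ∧
    ∀ a b : P, a ∈ maximalIdeal P → a ∉ maximalIdeal P ^ 2 → b ∈ maximalIdeal P →
      b ∉ maximalIdeal P ^ 2 → V.valuation (a : K) = V.valuation (b : K)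

/-- `P` is a regular local ring of dimension two, and the normalizations of its residue class domains
are finite (this holds if `P` is excellent; for example, if `P` is essentially of finite type over a
Dedekind domain of characteristic zero or over an `F`-finite ring). -/
def IsRegularSurface (P : Type u) [CommRing P] : Prop :=
  IsRegularLocalRing P ∧ ringKrullDim P = 2 ∧ ∀ (𝔭 : Ideal P) [𝔭.IsPrime], 𝔭 ≠ ⊥ →
    Module.Finite (P ⧸ 𝔭) (integralClosure (P ⧸ 𝔭) (FractionRing (P ⧸ 𝔭)))

/-- The subfields `L₁` and `L₂` of `K` are linearly disjoint over `k`: elements of `L₁` which are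
linearly independent over `k` are linearly independent over `L₂`. -/
def AreLinearlyDisjoint {k K : Type u} [Field k] [Field K] (κ : k →+* K) (L₁ L₂ : Subfield K) :
    Prop :=
  ∀ (n : ℕ) (a b : Fin n → K), (∀ i, a i ∈ L₁) → (∀ i, b i ∈ L₂) →
    (∀ c : Fin n → k, ∑ i, κ (c i) * a i = 0 → ∀ i, c i = 0) →
    ∑ i, a i * b i = 0 → ∀ i, b i = 0

/-- The valuation is the tensor product of its restrictions to `L₁` and `L₂`: every element `z` of
the ring generated by `L₁` and `L₂` is a sum of products `a j * b j`, `a j ∈ L₁`, `b j ∈ L₂`,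
whose values are at most the value of `z`. -/
def IsTensorProduct {K : Type u} [Field K] (V : ValuationSubring K) (L₁ L₂ : Subfield K) : Prop :=
  ∀ z ∈ Subring.closure ((L₁ : Set K) ∪ L₂), ∃ (n : ℕ) (a b : Fin n → K),
    (∀ j, a j ∈ L₁ ∧ b j ∈ L₂) ∧ z = ∑ j, a j * b j ∧
      ∀ j, V.valuation (a j * b j) ≤ V.valuation z

section key

open Polynomial

variable {K : Type u} [Field K] (V : ValuationSubring K) {L : Subfield K} (θ : K)

/-- The monic polynomial `ϕ` over `L` of positive degree is a key polynomial for the valuation
`f ↦ |f(θ)|` of polynomials: if `f` and `g` are nonzero polynomials of smaller degree and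
`f g = q ϕ + r` with `deg r < deg ϕ`, then `|q(θ) ϕ(θ)| < |f(θ) g(θ)|`. (So `|r(θ)| = |f(θ) g(θ)|`,
and the values of the polynomials of smaller degree define a valuation of `L[X] / (ϕ)`.) -/
def IsKey (ϕ : L[X]) : Prop :=
  ϕ.Monic ∧ 0 < ϕ.natDegree ∧ ∀ f g : L[X], f.degree < ϕ.degree → g.degree < ϕ.degree →
    f ≠ 0 → g ≠ 0 → V.valuation (aeval θ (f * g /ₘ ϕ * ϕ)) < V.valuation (aeval θ (f * g))

/-- The polynomials of degree less than the degree of `ϕ` have an orthogonal basis over `L` with
respect to the valuation `f ↦ |f(θ)|`. (For a key polynomial `ϕ` this means that the valued field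
`L[X] / (ϕ)` is an extension of `L` of degree `e f`. It holds if there are no limit key
polynomials of degree at most `deg ϕ`.) -/
def IsDefectless (ϕ : L[X]) : Prop :=
  ∃ (n : ℕ) (β : Fin n → L[X]), (∀ i, (β i).degree < ϕ.degree ∧ β i ≠ 0) ∧
    (∀ f : L[X], f.degree < ϕ.degree → ∃ c : Fin n → L, f = ∑ i, C (c i) * β i) ∧
    ∀ (c : Fin n → L) (i : Fin n), V.valuation (aeval θ (C (c i) * β i)) ≤
      V.valuation (aeval θ (∑ j, C (c j) * β j))

/-- The value of `f(θ)` is determined by `ϕ`: in the `ϕ`-adic expansion `f = ∑ f_k ϕ ^ k` with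
`deg f_k < deg ϕ` the value of no term at `θ` is greater than the value of `f(θ)`. -/
def IsDetermined (ϕ f : L[X]) : Prop :=
  ∃ (N : ℕ) (d : ℕ → L[X]), (∀ k, (d k).degree < ϕ.degree) ∧
    f = ∑ k ∈ Finset.range N, d k * ϕ ^ k ∧
    ∀ k < N, V.valuation (aeval θ (d k * ϕ ^ k)) ≤ V.valuation (aeval θ f)

end key

open Polynomial in
/-- The extension `L ⊆ L'` of subfields of `K` is finite and has no defect with respect to the
valuation ring `V` of `K`. That is, for some valuation ring `W` over `V` of some extension field
`M` of `K`, some root `ζ ∈ M` of a monic polynomial `f` over `V ∩ L` with `|f'(ζ)| = 1`, and some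
nonzero elements `β i` of `L'`, the field `L'(ζ)` is the sum of the lines `L(ζ) β i`, and the `β
i` are orthogonal over `L(ζ) = L[ζ]`. (The extension `L(ζ) / L` is unramified. If `L^h ⊆ L'^h ⊆
K^h` are the henselizations for `V` and `[L'^h : L^h] = e f`, then this holds with `M = K^h`,
`L(ζ)` a large finite subextension of `L^h / L`, and with products of `e` elements of `L'` whose
values represent the cosets of the value group and `f` elements of `L'` whose residues form a
basis for the `β i`. For `M = K` and `L(ζ) = L` it is the condition `[L' : L] = e f`.) -/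
def IsFiniteWithoutDefect {K : Type u} [Field K] (V : ValuationSubring K) (L L' : Subfield K) :
    Prop :=
  L ≤ L' ∧ ∃ (M : Type u) (_ : Field M) (_ : Algebra K M) (W : ValuationSubring M) (ζ : M)
    (f : L[X]) (n : ℕ) (β : Fin n → K), W.comap (algebraMap K M) = V ∧ f.Monic ∧
    (∀ i, (f.coeff i : K) ∈ V) ∧ eval₂ ((algebraMap K M).comp L.subtype) ζ f = 0 ∧
    W.valuation (eval₂ ((algebraMap K M).comp L.subtype) ζ (derivative f)) = 1 ∧
    (∀ i, β i ∈ L' ∧ β i ≠ 0) ∧
    (∀ z ∈ L', ∃ c : Fin n → L[X], algebraMap K M z =
      ∑ i, eval₂ ((algebraMap K M).comp L.subtype) ζ (c i) * algebraMap K M (β i)) ∧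
    ∀ (c : Fin n → L[X]) (i : Fin n),
      W.valuation (eval₂ ((algebraMap K M).comp L.subtype) ζ (c i) * algebraMap K M (β i)) ≤
        W.valuation (∑ j, eval₂ ((algebraMap K M).comp L.subtype) ζ (c j) * algebraMap K M (β j))

open Polynomial in
/-- The subfields `L` of `K` which are reached from the field `E` by a tower of steps without
defect with respect to the valuation ring `V` of `K`. -/
inductive Tower (E : Type u) {K : Type u} [Field E] [Field K] [Algebra E K]
    (V : ValuationSubring K) : Subfield K → Prop
  /-- The tower starts with (the image of) `E`. -/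
  | base : Tower E V (algebraMap E K).fieldRange
  /-- The step from `L` to `L(t)`, where `t` is transcendental and the value of every polynomial in
  `t` is determined by a defectless key polynomial. (This holds if the valuation of `L(t)` has no
  limit key polynomials; for example, if `L` is algebraically closed, if `t` is a limit of a
  pseudo-convergent sequence of transcendental type, or if the value or the residue of a
  defectless key polynomial at `t` is transcendental over `L`.) -/
  | transcendental (L : Subfield K) (t : K) : Tower E V L → Transcendental L t →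
    (∀ f : L[X], ∃ ϕ : L[X], IsKey V t ϕ ∧ IsDefectless V t ϕ ∧ IsDetermined V t ϕ f) →
    Tower E V (L ⊔ Subfield.closure {t})
  /-- The step from `L` to a finite extension `L'` without defect. -/
  | finite (L L' : Subfield K) : Tower E V L → IsFiniteWithoutDefect V L L' → Tower E V L'

/-- Every element of the field `K` is a fraction of elements of `A`. -/
def HasFractionField {K : Type u} [Field K] (A : Subring K) : Prop :=
  ∀ z : K, ∃ a ∈ A, ∃ b ∈ A, b ≠ 0 ∧ z = a * b⁻¹

/-- The field `K` is finitely generated over `R`: it is the fraction field of an `R`-algebra of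
finite type. -/
def IsFinitelyGenerated {R K : Type u} [CommRing R] [Field K] (ρ : R →+* K) : Prop :=
  ∃ T : Set K, T.Finite ∧ HasFractionField (adjoined ρ T)

/-- `A` is an affine model of the valuation ring `V` of `K` over `R`: the algebra generated by a
finite set `S`, contained in `V` and with the field of fractions `K`. -/
def IsAffineModel {R K : Type u} [CommRing R] [Field K] (ρ : R →+* K) (V : ValuationSubring K)
    (S : Set K) : Prop :=
  S.Finite ∧ adjoined ρ S ≤ V.toSubring ∧ HasFractionField (adjoined ρ S)

/-- The class of valuations (of fields over rings) which are reached from the discrete, divergent,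
known, two-dimensional and spanning ones by compositions, tensor products and towers without
defect. -/
inductive Reachable : ∀ {R : Type u} [CommRing R] {K : Type u} [Field K], (R →+* K) →
    ValuationSubring K → Prop
  /-- The trivial valuations. -/
  | trivial {R K : Type u} [CommRing R] [Field K] (ρ : R →+* K) :
    Reachable ρ (⊤ : ValuationSubring K)
  /-- The discrete valuations of rank one, and the valuations with divergent sequences of quadratic
  transforms of all `R`-algebras of finite type. -/
  | divergent {R K : Type u} [CommRing R] [Field K] (ρ : R →+* K) (V : ValuationSubring K) :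
    (IsDiscreteValuationRing V ∨ ∀ T : Set K, T.Finite → adjoined ρ T ≤ V.toSubring →
      IsDivergent V (adjoined ρ T)) → Reachable ρ V
  /-- The valuations which are log uniformizable on an affine model. -/
  | known {R K : Type u} [CommRing R] [Field K] (ρ : R →+* K) (V : ValuationSubring K)
    (S : Set K) : IsAffineModel ρ V S → IsLogUniformizable V (adjoined ρ S) → Reachable ρ V
  /-- The valuations whose centre on an affine model is regular of dimension two. -/
  | surface {R K : Type u} [CommRing R] [Field K] (ρ : R →+* K) (V : ValuationSubring K)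
    (S : Set K) : IsAffineModel ρ V S → IsRegularSurface (centreRing V (adjoined ρ S)) →
    Reachable ρ V
  /-- The valuations whose centre on an affine model is regular, for which infinitely many steps of
  the sequence of quadratic transforms are spanning. -/
  | spanning {R K : Type u} [CommRing R] [Field K] (ρ : R →+* K) (V : ValuationSubring K)
    (S : Set K) : IsAffineModel ρ V S → IsRegularLocalRing (centreRing V (adjoined ρ S)) →
    (∀ n : ℕ, ∃ l, n ≤ l ∧ IsSpanning V (quadraticSequence V (adjoined ρ S) l)) → Reachable ρ V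
  /-- The composites of a valuation ring `V₁` and a valuation ring `W` of its residue field. -/
  | composite {R K : Type u} [CommRing R] [Field K] (ρ : R →+* K) (V V₁ : ValuationSubring K)
    (W : ValuationSubring (ResidueField V₁)) (hρ : ∀ a, ρ a ∈ V₁.toSubring) :
    IsComposite V V₁ W → Reachable ρ V₁ →
    Reachable ((residue V₁).comp (ρ.codRestrict V₁.toSubring hρ)) W → Reachable ρ V
  /-- The tensor products of a valuation of a field `L₁` over `R` and a valuation of a field `L₂` over
  the field `k`, where `R` is an algebra over `k` and `K = L₁ L₂`. -/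
  | compositum {R k L₁ L₂ K : Type u} [CommRing R] [Field k] [Field L₁] [Field L₂] [Field K]
    [Algebra L₁ K] [Algebra L₂ K] (σ : k →+* R) (ρ₁ : R →+* L₁) (ρ₂ : k →+* L₂)
    (V : ValuationSubring K) :
    (algebraMap L₂ K).comp ρ₂ = ((algebraMap L₁ K).comp ρ₁).comp σ →
    (∀ a, algebraMap L₁ K (ρ₁ a) ∈ V) → IsFinitelyGenerated ρ₁ → IsFinitelyGenerated ρ₂ →
    AreLinearlyDisjoint ((algebraMap L₂ K).comp ρ₂) (algebraMap L₁ K).fieldRange
      (algebraMap L₂ K).fieldRange →
    IsTensorProduct V (algebraMap L₁ K).fieldRange (algebraMap L₂ K).fieldRange →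
    (algebraMap L₁ K).fieldRange ⊔ (algebraMap L₂ K).fieldRange = ⊤ →
    Reachable ρ₁ (V.comap (algebraMap L₁ K)) → Reachable ρ₂ (V.comap (algebraMap L₂ K)) →
    Reachable ((algebraMap L₁ K).comp ρ₁) V
  /-- The valuations of a field `K` which is reached by a tower without defect from a finitely
  generated field `E` whose valuation is in the class. -/
  | tower {R E K : Type u} [CommRing R] [Field E] [Field K] [Algebra E K] (ρ : R →+* E)
    (V : ValuationSubring K) : (∀ a, algebraMap E K (ρ a) ∈ V) → IsFinitelyGenerated ρ →
    Reachable ρ (V.comap (algebraMap E K)) → Tower E V ⊤ →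
    Reachable ((algebraMap E K).comp ρ) V

lemma quadraticSequence_eq {K : Type u} [Field K] (V : ValuationSubring K) (A : Subring K) :
    quadraticSequence V A = qseq V A := by
  funext n
  induction n with
  | zero => rfl
  | succ n ih =>
    change quadraticTransform V (quadraticSequence V A n) = qt V.toSubring (qseq V A n)
    rw [ih, qt_val]
    rfl

lemma IsDivergent.dv {K : Type u} [Field K] {V : ValuationSubring K} {A : Subring K}
    (h : IsDivergent V A) : Dv V (qseq V A) := by
  rw [← quadraticSequence_eq]
  exact dv_of_lt h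

/-- The steps of a tower. -/
lemma Tower.inv {E K : Type u} [Field E] [Field K] [Algebra E K] {V : ValuationSubring K}
    {R' : Subring K} (h0 : Pool.Agent.H176.DT.Inv V R' (algebraMap E K).fieldRange.subtype)
    {L : Subfield K} (hL : Tower E V L) : Pool.Agent.H176.DT.Inv V R' L.subtype := by
  have kp : ∀ {L : Subfield K} {θ : K} {ϕ : Polynomial L}, IsKey V θ ϕ → IsDefectless V θ ϕ →
      ∃ (n : ℕ) (β : Fin n → Polynomial L), Pool.Agent.H176.DT.KP V θ ϕ β := by
    rintro L θ ϕ ⟨h1, h2, h3⟩ ⟨n, β, h4, h5, h6⟩
    exact ⟨n, β, h1, h2, fun i => (h4 i).1, fun i => (h4 i).2, h5, h6, h3⟩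
  induction hL with
  | base => exact h0
  | transcendental L t _ ht hdom ih =>
    refine Pool.Agent.H176.DT.sub_trans V _ t ht (fun f => ?_) ih
    obtain ⟨ϕ, h1, h2, N, d, h3, h4, h5⟩ := hdom f
    obtain ⟨n, β, h6⟩ := kp h1 h2
    exact ⟨ϕ, n, β, h6, N, d, ⟨h3, h4⟩, h5⟩
  | finite L L' _ hnd ih => exact Pool.Agent.H176.DT.sub_nd V _ hnd.1 hnd.2 ih

lemma Reachable.good {R : Type u} [CommRing R] {K : Type u} [Field K] {ρ : R →+* K}
    {V : ValuationSubring K} (h : Reachable ρ V) : HJ R → Pool.Agent.R187.CT.Good ρ V := by
  induction h with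
  | trivial ρ => exact fun _ => Pool.Agent.R187.CT.good_top ρ
  | divergent ρ V h =>
    exact fun hR =>
      Pool.Agent.R187.CT.good_dv hR ρ V (h.imp_right fun h T hT hTV => (h T hT hTV).dv)
  | known ρ V S hS h =>
    exact fun hR => Pool.Agent.H59.RP.good_of_one hR ρ V hS.1 hS.2.1 hS.2.2 h
  | surface ρ V S hS h =>
    exact fun hR => Pool.Agent.H59.RP.good_surf hR ρ V hS.1 hS.2.1 hS.2.2 h.1 h.2.1 h.2.2
  | spanning ρ V S hS h hs =>
    intro hR
    refine Pool.Agent.H59.RP.good_spn hR ρ V hS.1 hS.2.1 hS.2.2 h fun n => ?_
    obtain ⟨l, hl, h1⟩ := hs n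
    rw [quadraticSequence_eq] at h1
    obtain ⟨_, h1, h2⟩ := h1
    exact ⟨l, hl, fun _ => ⟨h1, h2⟩⟩
  | composite ρ V V₁ W hρ hc _ _ ih₁ ihW =>
    exact fun hR => Pool.Agent.R187.CT.good_comp hR ρ hρ hc (ih₁ hR) (ihW hR)
  | compositum σ ρ₁ ρ₂ V hσ hρ h₁ h₂ hLD hT htop _ _ ih₁ ih₂ =>
    exact fun hR => Pool.Agent.H59.RP.good_cpt hR σ ρ₁ ρ₂ hσ V hρ h₁ h₂ (ih₁ hR)
      (ih₂ Pool.Agent.X140.CP.hj_field) hLD hT htop
  | tower ρ V hρ hE _ ht ih =>
    exact fun hR => Pool.Agent.R187.CT.good_tower hR ρ V hρ hE (ih hR) fun R' h0 => ht.inv h0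

lemma hj {O : Type u} [CommRing O] [IsDedekindDomain O] (h : CharZero O ∨ IsFFinite O) :
    HJ O := by
  rcases h with h | h
  · exact hj_dedekind
  · apply BR.hj
    intro 𝔭 h𝔭
    exact Or.inr ⟨O, inferInstance, inferInstance, inferInstance, Ideal.Quotient.mk 𝔭,
      RingHom.FiniteType.of_surjective _ Ideal.Quotient.mk_surjective, Or.inl h⟩

/-- The valuation ring `V` of `K` induces the point `(Z, U)`: `V₁ = V[1 / π]`, `Q` is the local ring
of the projective scheme `Proj O[W]` at the centre `Z` of `V₁`, which lies in the chart `w ≠ 0`, `U`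
is the valuation ring which `V` induces on the residue field `κ(Z)` of `Q`, and `ρ` is the map from
`O` to `κ(Z)`. -/
structure Induces {K : Type u} [Field K] (V : ValuationSubring K) (O : Subring K) (π : O)
    (W : Set K) (w : K) (V₁ : ValuationSubring K) (Q : Subring K) [IsLocalRing Q]
    (U : ValuationSubring (ResidueField Q)) (ρ : O →+* ResidueField Q) : Prop where
  mem_iff : ∀ z : K, z ∈ V₁ ↔ ∃ n : ℕ, (π : K) ^ n * z ∈ V
  eq : centreRing V₁ (chart O W w) = Q
  residue_mem_iff : ∀ z : Q, residue Q z ∈ U ↔ (z : K) ∈ V
  map_eq : ∀ (a : O) (h : (a : K) ∈ Q), ρ a = residue Q ⟨a, h⟩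

/-- There are `K' = K(ϖ)`, `ϖ ^ N = π`, and valuation rings `V'` of `K'` over `V`, and for all such
`K'` and `V'` there is a closed subscheme of the fibre of `Proj O[W] ⊗ O[ϖ]` over `ϖ = 0` such that
the blowing-up in this subscheme (the component with the function field `K'`) is semistable at the
centre of `V'`. -/
def HasSemistableBlowUps {K : Type u} [Field K] (V : ValuationSubring K) (O : Subring K) (π : K)
    (W : Set K) (N : ℕ) : Prop :=
  (∃ (K' : Type u) (_ : Field K') (_ : Algebra K K') (V' : ValuationSubring K') (ϖ : K'),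
    IsLift V π N V' ϖ) ∧
  ∀ (K' : Type u) [Field K'] [Algebra K K'] (V' : ValuationSubring K') (ϖ : K'),
    IsLift V π N V' ϖ → ∃ Y : Set K',
      IsVerticalCentre (ramifiedRing (algebraMap K K') O ϖ) ϖ (algebraMap K K' '' W) Y ∧
      IsSemistableAt V' (ramifiedRing (algebraMap K K') O ϖ)
        (blowUpCoordinates (algebraMap K K' '' W) Y) ϖ

/-- The proof, with a name for the local ring. -/
theorem core {K : Type u} [Field K] (V V₁ : ValuationSubring K)
    (O : Subring K) [IsDedekindDomain O] (hO : CharZero O ∨ IsFFinite O) (hOV : ∀ a ∈ O, a ∈ V)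
    (π : K) (hπ : π ∈ O) (hπ0 : π ≠ 0) (hπ1 : V.valuation π < 1)
    (hV₁ : ∀ z : K, z ∈ V₁ ↔ ∃ n : ℕ, π ^ n * z ∈ V)
    (W : Set K) (hW : W.Finite) (w : K) (hw : w ∈ W) (hw0 : w ≠ 0)
    (hwV : ∀ z ∈ W, z / w ∈ V) (hWK : HasFractionField (chart O W w))
    (Q : Subring K) (hQ : lo V₁.toSubring (chart O W w) = Q) [IsRegularLocalRing Q]
    (U : ValuationSubring (ResidueField Q))
    (hU : ∀ z : Q, residue Q z ∈ U ↔ (z : K) ∈ V)
    (ρ : O →+* ResidueField Q) (hρ : ∀ (a : O) (h : (a : K) ∈ Q), ρ a = residue Q ⟨a, h⟩)
    (hUr : Reachable ρ U)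
    (hlead : ∀ p : ℕ, p.Prime → U.valuation (p : ResidueField Q) < 1 →
      ∀ z, U.valuation (ρ ⟨π, hπ⟩) ≤ U.valuation (ρ ⟨π, hπ⟩ - z ^ p)) :
    ∃ (D N₀ : ℕ) (ζ : ResidueField Q), 0 < D ∧ ζ ≠ 0 ∧
      (∀ n : ℤ, U.valuation (ρ ⟨π, hπ⟩) ≤ U.valuation ((ρ ⟨π, hπ⟩ / ζ ^ D) ^ n)) ∧
      ∀ N : ℕ, N₀ ≤ N → D ∣ N →
        (∃ (K' : Type u) (_ : Field K') (_ : Algebra K K') (V' : ValuationSubring K') (ϖ : K'),
          IsLift V π N V' ϖ) ∧
        ∀ {K' : Type u} [Field K'] [Algebra K K'] (V' : ValuationSubring K') (ϖ : K'),
          IsLift V π N V' ϖ →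
          ∃ Y : Set K',
            IsVerticalCentre (ramifiedRing (algebraMap K K') O ϖ) ϖ (algebraMap K K' '' W) Y ∧
            IsSemistableAt V' (ramifiedRing (algebraMap K K') O ϖ)
              (blowUpCoordinates (algebraMap K K' '' W) Y) ϖ := by
  classical
  have hA : chart O W w ≤ V.toSubring := by
    unfold chart
    rw [Subring.closure_le]
    rintro z (hz | ⟨y, hy, rfl⟩)
    · exact hOV z hz
    · exact hwV y hy
  have hMod : Pool.Agent.H176.DT.Mod V (chart O W w) := ⟨hA, hWK⟩
  have hR : HJ O := hj hO
  have hVV : V ≤ V₁ := fun z hz => (hV₁ z).2 ⟨0, by rwa [pow_zero, one_mul]⟩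
  have hmV : ∀ z, V₁.valuation z < 1 → z ∈ V := by
    intro z hz
    by_contra hzV
    have h1 := hVV ((V.mem_or_inv_mem z).resolve_left hzV)
    have h2 : z ≠ 0 := fun h => hzV (by rw [h]; exact V.zero_mem)
    exact nu_iff.2 hz ⟨h2, h1⟩
  have hπ₁ : π⁻¹ ∈ V₁ := (hV₁ _).2 ⟨1, by
    rw [pow_one, mul_inv_cancel₀ hπ0]
    exact V.one_mem⟩
  have hA₁ : chart O W w ≤ V₁.toSubring := fun a ha => hVV (hA ha)
  have hQV₁ : Q ≤ V₁.toSubring := by rw [← hQ]; exact lo_le hA₁
  have hAQ : chart O W w ≤ Q := by rw [← hQ]; exact le_lo _ _
  have hOA : ∀ z ∈ O, z ∈ chart O W w := fun z hz => Subring.subset_closure (Or.inl hz)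
  have hQi : ∀ z ∈ Q, z ≠ 0 → z⁻¹ ∈ V₁.toSubring → z⁻¹ ∈ Q := by
    intro z hz h0 h1
    rw [← hQ] at hz ⊢
    exact inv_mem_lo hA₁ hz h0 h1
  have hFr : IsFractionRing Q K := by
    apply IsFractionRing.of_field
    intro z
    obtain ⟨a, ha, b, hb, hb0, rfl⟩ := hWK z
    exact ⟨⟨a, hAQ ha⟩, ⟨b, hAQ hb⟩, (div_eq_mul_inv a b).symm⟩
  have hprV : ∀ {z : K} {u : ResidueField Q}, Pr (residue Q) z u → (z ∈ V ↔ u ∈ U) := by
    intro z u h
    rw [h.unique (Pool.Agent.W5h94.SP.q_pr (Pool.Agent.W5h94.SP.q_mem h))]
    exact (hU ⟨z, Pool.Agent.W5h94.SP.q_mem h⟩).symm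
  have hpr0 : ∀ {z : K} {u : ResidueField Q}, Pr (residue Q) z u → (u = 0 ↔ V₁.valuation z < 1) :=
    fun h => Pool.Agent.W5h94.SP.q_zero_iff hQV₁ hQi h
  have hρr : ∀ a : O, Pr (residue Q) (a : K) (ρ a) := by
    intro a
    rw [hρ a (hAQ (hOA a a.2))]
    exact Pool.Agent.W5h94.SP.q_pr _
  let rs : K → ResidueField Q := fun z => if hz : z ∈ Q then residue Q ⟨z, hz⟩ else 0
  have hrs : ∀ z ∈ Q, Pr (residue Q) z (rs z) := by
    intro z hz
    simp only [rs, dif_pos hz]
    exact Pool.Agent.W5h94.SP.q_pr hz
  -- comparison of the values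
  have hval : ∀ {z z' : K} {u u' : ResidueField Q}, Pr (residue Q) z u → Pr (residue Q) z' u' →
      u' ≠ 0 → (V.valuation z ≤ V.valuation z' ↔ U.valuation u ≤ U.valuation u') := by
    intro z z' u u' h h' hu'
    have hz' : z' ≠ 0 := h'.ne_zero hu'
    have h1 := hprV (h.mul (h'.inv hu'))
    rw [← V.valuation_le_one_iff, ← U.valuation_le_one_iff, map_mul, map_mul, map_inv₀,
      map_inv₀, ← div_eq_mul_inv, ← div_eq_mul_inv,
      div_le_one₀ (zero_lt_iff.2 ((map_ne_zero _).2 hz')),
      div_le_one₀ (zero_lt_iff.2 ((map_ne_zero _).2 hu'))] at h1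
    exact h1
  have hπr : Pr (residue Q) π (ρ ⟨π, hπ⟩) := hρr ⟨π, hπ⟩
  have hπu : ρ ⟨π, hπ⟩ ≠ 0 := by
    intro h
    exact nu_iff.2 ((hpr0 hπr).1 h) ⟨hπ0, hπ₁⟩
  -- the image of the coordinate ring
  let Tb : Set (ResidueField Q) := (fun v => rs (v / w)) '' W
  have hTb : Tb.Finite := hW.image _
  have hch : im (residue Q) (chart O W w) = Pool.Agent.R187.CT.rg ρ Tb := by
    unfold chart
    refine im_closure ?_ ?_
    · rintro u (hu | ⟨v, hv, rfl⟩)
      · exact ⟨ρ ⟨u, hu⟩, Or.inl ⟨⟨u, hu⟩, rfl⟩, hρr ⟨u, hu⟩⟩
      · exact ⟨rs (v / w), Or.inr ⟨v, hv, rfl⟩,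
          hrs _ (hAQ (Subring.subset_closure (Or.inr ⟨v, hv, rfl⟩)))⟩
    · rintro u (⟨a, rfl⟩ | ⟨v, hv, rfl⟩)
      · exact ⟨a, Or.inl a.2, hρr a⟩
      · exact ⟨v / w, Or.inr ⟨v, hv, rfl⟩,
          hrs _ (hAQ (Subring.subset_closure (Or.inr ⟨v, hv, rfl⟩)))⟩
  have himU : im (residue Q) (chart O W w) ≤ U.toSubring := by
    rintro u ⟨z, hz, h⟩
    exact (hprV h).1 (hA hz)
  have himF : ∀ u : ResidueField Q, ∃ a ∈ im (residue Q) (chart O W w),
      ∃ b ∈ im (residue Q) (chart O W w), b ≠ 0 ∧ u = a * b⁻¹ := by
    intro u
    obtain ⟨⟨z, hz⟩, rfl⟩ := residue_surjective (R := Q) u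
    have hz' := hz
    rw [← hQ] at hz'
    obtain ⟨a, ha, b, hb, hb0, hbV, hab⟩ := hz'
    have h1 := hrs a (hAQ ha)
    have h2 := hrs b (hAQ hb)
    have h3 : rs b ≠ 0 := fun h => nu_iff.2 ((hpr0 h2).1 h) ⟨hb0, hbV⟩
    refine ⟨rs a, ⟨a, ha, h1⟩, rs b, ⟨b, hb, h2⟩, h3, ?_⟩
    have h4 : Pr (residue Q) z (residue Q ⟨z, hz⟩) := Pool.Agent.W5h94.SP.q_pr hz
    refine h4.unique ?_
    rw [hab]
    exact h1.mul (h2.inv h3)
  have hnoeb : IsNoetherianRing (im (residue Q) (chart O W w)) := by
    rw [hch]
    exact Pool.Agent.R187.CT.noe_rg hR ρ hTb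
  have hLU : LogUnif U (im (residue Q) (chart O W w)) :=
    (hUr.good hR).logUnif hR hTb himU hch.ge
      (fun b hb => ⟨b, by rw [← hch]; exact hb, 1, Subring.one_mem _, one_ne_zero,
        by rw [inv_one]; exact Subring.one_mem _, by rw [inv_one, mul_one]⟩) himF
  have hSU : Pool.Agent.H176.DT.SU U (im (residue Q) (chart O W w)) :=
    Pool.Agent.H176.DT.p_base _ _ ⟨himU, himF⟩ hLU
  have hN : IsNoetherianRing (chart O W w) := by
    have hrange : ((O.subtype.range : Subring K) : Set K) = (O : Set K) := by
      ext z
      simp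
    have hch' : chart O W w = Pool.Agent.R187.CT.rg O.subtype {z | ∃ y ∈ W, z = y / w} := by
      change _ = Subring.closure (((O.subtype.range : Subring K) : Set K) ∪ _)
      rw [hrange]
      rfl
    have hT : ({z | ∃ y ∈ W, z = y / w} : Set K).Finite := by
      refine (hW.image fun y => y / w).subset ?_
      rintro z ⟨y, hy, rfl⟩
      exact ⟨y, hy, rfl⟩
    rw [hch']
    exact Pool.Agent.R187.CT.noe_rg hR _ hT
  obtain ⟨T, s, x, xb, hSt, hxV, hind, hmon, hxr⟩ := Pool.Agent.W5h94.SP.lift_SU hVV hmV hA Q hQ U
    hU hSU (hOA π hπ) hπ0 hπ₁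
  have hxb0 : ∀ i, xb i ≠ 0 := fun i => (hxr i).1
  have hx0 : ∀ i, x i ≠ 0 := fun i => (hxr i).2.ne_zero (hxb0 i)
  have hmor : ∀ δ : Fin s → ℤ, Pr (residue Q) (mo x δ) (mo xb δ) := fun δ =>
    Pr.mo (fun i => (hxr i).2) hxb0 δ
  have hmob0 : ∀ δ : Fin s → ℤ, mo xb δ ≠ 0 := fun δ => mo_ne_zero hxb0 δ
  -- the local ring of the stage is contained in `Q`
  have hxV₁ : ∀ i, (x i)⁻¹ ∈ V₁ := fun i =>
    hQV₁ (Pool.Agent.W5h94.SP.q_mem ((hxr i).2.inv (hxb0 i)))
  have hPQ : Pool.Agent.H176.DT.PP V (chart O W w) T ≤ Q := by
    obtain ⟨β, hβ, ⟨v, hv0, hv1, hv2, γ, hγ⟩, hβT, -⟩ := hSt.den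
    have hβ0 : β ≠ 0 := by
      rw [hγ]
      exact mul_ne_zero hv0 (mo_ne_zero hx0 _)
    have hβi : β⁻¹ ∈ Q := by
      refine hQi β (hAQ hβ) hβ0 ?_
      rw [hγ, mul_inv]
      refine V₁.toSubring.mul_mem (hVV (hSt.reg.PA hv2)) ?_
      exact hQV₁ (Pool.Agent.W5h94.SP.q_mem ((hmor γ).inv (hmob0 γ)))
    have hcl : Subring.closure ((chart O W w : Set K) ∪ T) ≤ Q := by
      rw [Subring.closure_le]
      rintro t (ht | ht)
      · exact hAQ ht
      · have h1 : t = β * t * β⁻¹ := by
          field_simp
        rw [h1]
        exact Q.mul_mem (hAQ (hβT t ht)) hβi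
    rintro _ ⟨a, ha, b, hb, hb0, hbV, rfl⟩
    exact Q.mul_mem (hcl ha) (hQi b (hcl hb) hb0 (hVV hbV))
  obtain ⟨D, N₀, cc, hD, hζ', h3⟩ := Pool.Agent.W5h94.WP.ss_main9 V O hOV hW hw hw0 hwV hMod
    π hπ0 hπ1 hSt hxV hind hmon (by
      intro i
      obtain ⟨n, hn⟩ := (hV₁ _).1 (hxV₁ i)
      refine ⟨n, ?_⟩
      rw [← V.valuation_le_one_iff, map_mul, map_pow, map_inv₀, ← div_eq_mul_inv,
        div_le_one₀ (zero_lt_iff.2 ((map_ne_zero _).2 (hx0 i)))] at hn
      exact hn) (by
      intro q hq hq1 a ha δ
      have hqr : Pr (residue Q) (q : K) (q : ResidueField Q) := by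
        have h1 := Pr.alg (F := K) (φ := residue Q) (q : Q)
        rwa [map_natCast, map_natCast] at h1
      have hq2 : U.valuation (q : ResidueField Q) < 1 := by
        by_contra hcon
        push Not at hcon
        have h1 : (q : ResidueField Q) ≠ 0 := by
          intro h
          rw [h, map_zero] at hcon
          exact absurd hcon (not_le.2 zero_lt_one)
        have h2 := (hval Pr.one hqr h1).2 (by rwa [map_one])
        rw [map_one] at h2
        exact absurd hq1 (not_lt.2 h2)
      have h1 := ((hrs a (hPQ ha)).mul (hmor δ)).pow q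
      have h2 := hπr.add h1.neg
      rw [← sub_eq_add_neg, ← sub_eq_add_neg] at h2
      have h3 := hlead q hq hq2 (rs a * mo xb δ)
      refine (hval hπr h2 ?_).2 h3
      intro h4
      rw [h4, map_zero, le_zero_iff, map_eq_zero] at h3
      exact hπu h3)
  refine ⟨D, N₀ + 1, mo xb cc, hD, hmob0 cc, fun n => ?_, fun N hN' hdN =>
    ⟨Pool.Agent.H176.DT.exists_root _ _ (by omega), ?_⟩⟩
  · have h1 : Pr (residue Q) (π / mo x cc ^ D) (ρ ⟨π, hπ⟩ / mo xb cc ^ D) := by
      rw [div_eq_mul_inv, div_eq_mul_inv]
      exact hπr.mul (((hmor cc).pow D).inv (pow_ne_zero _ (hmob0 cc)))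
    have h2 : ρ ⟨π, hπ⟩ / mo xb cc ^ D ≠ 0 := div_ne_zero hπu (pow_ne_zero _ (hmob0 cc))
    refine (hval hπr (h1.zpow h2 n) (zpow_ne_zero _ h2)).1 ?_
    rw [map_zpow₀]
    exact hζ' n
  have hN₀ : N₀ ≤ N := by omega
  rintro K' _ _ V' ϖ ⟨hV', hϖ, hgen⟩
  obtain ⟨Y, d', n', h4, h5, h6, w', h7, h8, h9, P, h10, h11⟩ := h3 N hN₀ hdN V' ϖ hV' hϖ hgen
  have h12 : ramifiedRing (algebraMap K K') O ϖ = Pool.Agent.H176.DT.Orm O ϖ := rfl
  rw [h12]
  refine ⟨Y, ⟨h4, d', n', h5, h6⟩, w', h7, h8, h9, ?_⟩
  have h13 : centreRing V' (chart (Pool.Agent.H176.DT.Orm O ϖ)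
      (blowUpCoordinates (algebraMap K K' '' W) Y) w') = P := h10
  rw [h13]
  exact h11

/-- Let `V` be a valuation ring of the field `K`. Let `O ⊆ V` be a Dedekind domain which has
characteristic zero or is `F`-finite (for example, `O = k°` for a discretely valued field `k`), and
let `π ∈ O` be a nonzero element with `|π| < 1` (for example, a uniformizer of `k`). Let `𝒳` be an
integral projective `O`-scheme with function field `K` and with the homogeneous coordinates `W`; let
the chart `w ≠ 0` contain the centre of `V`. Let `V₁ = V[1 / π]`, and let `Z` be the centre of `V₁`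
on `𝒳` (on the fibre `X` where `π` is invertible). Suppose that `X` is regular at (the generic point
of) `Z`. Let `U` be the valuation ring of the residue field `κ(Z)` which is induced by `V`; so
`(Z, U)` is a point of `X^ad`. Let `U` be reachable over `O`. Let `p` be the residue characteristic
of `U`. Suppose that the leading form of `π` is not a `p`-th power: `|π| ≤ |π - z ^ p|` for all `z` in
`κ(Z)` (for example, that `|π|` is not a `p`-th power in the value group of `U`).

Then there are `D > 0`, `N₀` and `ζ ≠ 0` in `κ(Z)` such that `π / ζ ^ D` is infinitesimal (the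
absolute values of its powers are not smaller than `|π|`), and for all `N ≥ N₀` divisible by `D`
there are `K' = K(ϖ)`, `ϖ ^ N = π`, and valuation rings `V'` of `K'` over `V`, and for all such `K'`
and `V'` there is a closed subscheme of the fibre of `𝒳 ⊗ O[ϖ]` over `ϖ = 0` such that the
blowing-up in this subscheme (the component with the function field `K'` if `K ⊗ k(ϖ)` is not a
field) is semistable at the centre of `V'`. -/
theorem result {K : Type u} [Field K] (V : ValuationSubring K)
    (O : Subring K) [IsDedekindDomain O] (hO : CharZero O ∨ IsFFinite O) (hOV : ∀ a ∈ O, a ∈ V)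
    (π : O) (hπ0 : π ≠ 0) (hπ1 : V.valuation (π : K) < 1)
    (W : Set K) (hW : W.Finite) (w : K) (hw : w ∈ W) (hw0 : w ≠ 0)
    (hwV : ∀ z ∈ W, z / w ∈ V) (hWK : HasFractionField (chart O W w))
    (V₁ : ValuationSubring K) (Q : Subring K) [IsRegularLocalRing Q]
    (U : ValuationSubring (ResidueField Q)) (ρ : O →+* ResidueField Q)
    (hVU : Induces V O π W w V₁ Q U ρ) (hU : Reachable ρ U)
    (hlead : ∀ p : ℕ, p.Prime → U.valuation (p : ResidueField Q) < 1 →
      ∀ z, U.valuation (ρ π) ≤ U.valuation (ρ π - z ^ p)) :
    ∃ (D N₀ : ℕ) (ζ : ResidueField Q), 0 < D ∧ ζ ≠ 0 ∧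
      (∀ n : ℤ, U.valuation (ρ π) ≤ U.valuation ((ρ π / ζ ^ D) ^ n)) ∧
      ∀ N : ℕ, N₀ ≤ N → D ∣ N → HasSemistableBlowUps V O π W N := by
  obtain ⟨D, N₀, ζ, hD, hζ, h1, h2⟩ := core V V₁ O hO hOV (π : K) π.2
    (fun h => hπ0 (Subtype.ext h)) hπ1 hVU.mem_iff W hW w hw hw0 hwV hWK Q hVU.eq U
    hVU.residue_mem_iff ρ hVU.map_eq hU hlead
  refine ⟨D, N₀, ζ, hD, hζ, h1, fun N hN hd => ⟨(h2 N hN hd).1, ?_⟩⟩
  intro K' _ _ V' ϖ h
  exact (h2 N hN hd).2 V' ϖ h

end Pool.Agent.Results.MP_1a953e_ag.ReachablePoints
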